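import Pool.Agent.Run7.h249.SlopeP

/-!
The dimension of a convex polytope is at most the number of its combinatorial flag orbits plus a
constant.
-/

namespace Pool.Agent.Results.MP_7157e1_co.DimBoundSlopeOne

/-- `P` is a convex `d`-polytope: the convex hull of finitely many points of `ℝ^d`, with nonempty
interior. -/
def IsConvexPolytope {d : ℕ} (P : Set (EuclideanSpace ℝ (Fin d))) : Prop :=
  (∃ s : Finset (EuclideanSpace ℝ (Fin d)),
      P = convexHull ℝ (s : Set (EuclideanSpace ℝ (Fin d)))) ∧ (interior P).Nonempty

/-- The face lattice of `P`: its (exposed) faces, the empty face and `P` itself included, ordered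
by inclusion. -/
abbrev FaceLattice {d : ℕ} (P : Set (EuclideanSpace ℝ (Fin d))) : Type :=
  {F : Set (EuclideanSpace ℝ (Fin d)) // IsExposed ℝ P F}

/-- `P` has exactly `k` combinatorial flag orbits: the group of all order automorphisms of the face
lattice has exactly `k` orbits on the set of flags (maximal chains) of the face lattice. -/
def HasFlagOrbits {d : ℕ} (P : Set (EuclideanSpace ℝ (Fin d))) (k : ℕ) : Prop :=
  Nat.card (MulAction.orbitRel.Quotient (FaceLattice P ≃o FaceLattice P)
    (Flag (FaceLattice P))) = k

/-- If a convex `d`-polytope has exactly `k ≥ 2` combinatorial flag orbits, then `d ≤ k + 29`, and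
if moreover `d ≥ 54`, then `d ≤ k + 14`. -/
theorem result (d k : ℕ) (hk : 2 ≤ k) (P : Set (EuclideanSpace ℝ (Fin d)))
    (hP : IsConvexPolytope P) (h : HasFlagOrbits P k) :
    d ≤ k + 29 ∧ (54 ≤ d → d ≤ k + 14) := by
  have h1 := Run7.h249.slope_poly (E := EuclideanSpace ℝ (Fin d)) hP.1 hP.2 hk h
  rwa [finrank_euclideanSpace_fin] at h1

end Pool.Agent.Results.MP_7157e1_co.DimBoundSlopeOne
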