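import Pool.Agent.Run7.h249.Exist6

/-!
Four infinite families of pairs for which there is a convex `d`-polytope with exactly `k`
combinatorial flag orbits.
-/

namespace Pool.Agent.Results.MP_7157e1_co.FourFamilies

/-- `P` is a convex `d`-polytope: the convex hull of finitely many points of `ℝ^d`, with nonempty
interior. -/
def IsConvexPolytope {d : ℕ} (P : Set (EuclideanSpace ℝ (Fin d))) : Prop :=
  (∃ s : Finset (EuclideanSpace ℝ (Fin d)),
      P = convexHull ℝ (s : Set (EuclideanSpace ℝ (Fin d)))) ∧ (interior P).Nonempty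

/-- The face lattice of `P`: its (exposed) faces, the empty face and `P` itself included, ordered
by inclusion. -/
abbrev FaceLattice {d : ℕ} (P : Set (EuclideanSpace ℝ (Fin d))) : Type :=
  {F : Set (EuclideanSpace ℝ (Fin d)) // IsExposed ℝ P F}

/-- `P` has exactly `k` combinatorial flag orbits: the group of all order automorphisms of the face
lattice has exactly `k` orbits on the set of flags (maximal chains) of the face lattice. -/
def HasFlagOrbits {d : ℕ} (P : Set (EuclideanSpace ℝ (Fin d))) (k : ℕ) : Prop :=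
  Nat.card (MulAction.orbitRel.Quotient (FaceLattice P ≃o FaceLattice P)
    (Flag (FaceLattice P))) = k

/-- There is a convex `d`-polytope with exactly `k` combinatorial flag orbits for `k = d - 2`
(`d ≥ 5`), `k = d - 1` (`d ≥ 4`), `k = d` and `k = d + 1` (`d ≥ 3`). -/
theorem result (d k : ℕ) (h : (k + 2 = d ∧ 5 ≤ d) ∨ (k + 1 = d ∧ 4 ≤ d) ∨ (k = d ∧ 3 ≤ d) ∨
      (k = d + 1 ∧ 3 ≤ d)) :
    ∃ P : Set (EuclideanSpace ℝ (Fin d)), IsConvexPolytope P ∧ HasFlagOrbits P k := by
  obtain ⟨s, h1, h2⟩ := Run7.h249.exists_orb d k (Or.inr h)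
    (E := EuclideanSpace ℝ (Fin d)) finrank_euclideanSpace_fin
  exact ⟨convexHull ℝ (s : Set (EuclideanSpace ℝ (Fin d))), ⟨⟨s, rfl⟩, h1⟩, h2⟩

end Pool.Agent.Results.MP_7157e1_co.FourFamilies
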