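import Pool.Agent.Run7.h249.Exist6

/-!
The exact set of the numbers of combinatorial flag orbits of convex polytopes of large dimension,
in the range where these numbers are not much larger than the dimension.
-/

namespace Pool.Agent.Results.MP_7157e1_co.OrbitSpectrum

/-- `P` is a convex `d`-polytope: the convex hull of finitely many points of `ℝ^d`, with nonempty
interior. -/
def IsConvexPolytope {d : ℕ} (P : Set (EuclideanSpace ℝ (Fin d))) : Prop :=
  (∃ s : Finset (EuclideanSpace ℝ (Fin d)),
      P = convexHull ℝ (s : Set (EuclideanSpace ℝ (Fin d)))) ∧ (interior P).Nonempty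

/-- The face lattice of `P`: its (exposed) faces, the empty face and `P` itself included, ordered
by inclusion. -/
abbrev FaceLattice {d : ℕ} (P : Set (EuclideanSpace ℝ (Fin d))) : Type :=
  {F : Set (EuclideanSpace ℝ (Fin d)) // IsExposed ℝ P F}

/-- `P` has exactly `k` combinatorial flag orbits: the group of all order automorphisms of the face
lattice has exactly `k` orbits on the set of flags (maximal chains) of the face lattice. -/
def HasFlagOrbits {d : ℕ} (P : Set (EuclideanSpace ℝ (Fin d))) (k : ℕ) : Prop :=
  Nat.card (MulAction.orbitRel.Quotient (FaceLattice P ≃o FaceLattice P)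
    (Flag (FaceLattice P))) = k

/-- For `d ≥ 337` and `1 ≤ k ≤ (25 d - 409) / 24` there is a convex `d`-polytope with exactly `k`
combinatorial flag orbits if and only if `k` is one of `1, d - 2, d - 1, d, d + 1`. -/
theorem result (d k : ℕ) (hd : 337 ≤ d) (hk : 1 ≤ k) (hkd : 24 * k + 409 ≤ 25 * d) :
    (∃ P : Set (EuclideanSpace ℝ (Fin d)), IsConvexPolytope P ∧ HasFlagOrbits P k) ↔
      k = 1 ∨ k + 2 = d ∨ k + 1 = d ∨ k = d ∨ k = d + 1 := by
  constructor
  · rintro ⟨P, hP, h⟩
    rcases Nat.lt_or_ge k 2 with h2 | h2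
    · left; omega
    · right
      have h1 := Run7.h249.gap_poly (E := EuclideanSpace ℝ (Fin d)) hP.1 hP.2 h2 h
        (by rw [finrank_euclideanSpace_fin]; exact hd)
        (by rw [finrank_euclideanSpace_fin]; exact hkd)
      rw [finrank_euclideanSpace_fin] at h1
      omega
  · intro h
    obtain ⟨s, h1, h2⟩ := Run7.h249.exists_orb d k (by omega)
      (E := EuclideanSpace ℝ (Fin d)) finrank_euclideanSpace_fin
    exact ⟨convexHull ℝ (s : Set (EuclideanSpace ℝ (Fin d))), ⟨⟨s, rfl⟩, h1⟩, h2⟩

end Pool.Agent.Results.MP_7157e1_co.OrbitSpectrum
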